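import Pool.Agent.Helper28.BA.GoalsA
import Pool.Agent.Helper28.BA.GoalsB

/-! # Packet RAW -/

open Complex MeasureTheory Set Filter Topology
open scoped ContDiff

namespace Pool.Agent.Helper11.BA

open Pool.Agent.Helper28.BA

lemma dz_cont {f : ℂ → ℂ} (hf : ContDiff ℝ 1 f) : Continuous (dz f) := by
  have h := hf.continuous_fderiv one_ne_zero
  unfold dz
  have h1 : Continuous fun z => fderiv ℝ f z 1 := h.clm_apply continuous_const
  have h2 : Continuous fun z => fderiv ℝ f z I := h.clm_apply continuous_const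
  exact continuous_const.mul (h1.sub (continuous_const.mul h2))

lemma db_cont {f : ℂ → ℂ} (hf : ContDiff ℝ 1 f) : Continuous (db f) := by
  have h := hf.continuous_fderiv one_ne_zero
  unfold db
  have h1 : Continuous fun z => fderiv ℝ f z 1 := h.clm_apply continuous_const
  have h2 : Continuous fun z => fderiv ℝ f z I := h.clm_apply continuous_const
  exact continuous_const.mul (h1.add (continuous_const.mul h2))

lemma dz_supp {f : ℂ → ℂ} (hf : HasCompactSupport f) : HasCompactSupport (dz f) := by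
  refine (hf.fderiv (𝕜 := ℝ)).mono ?_
  intro z hz hz'
  apply hz
  have : fderiv ℝ f z = 0 := hz'
  simp [dz, this]

lemma db_supp {f : ℂ → ℂ} (hf : HasCompactSupport f) : HasCompactSupport (db f) := by
  refine (hf.fderiv (𝕜 := ℝ)).mono ?_
  intro z hz hz'
  apply hz
  have : fderiv ℝ f z = 0 := hz'
  simp [db, this]

lemma db_smooth {f : ℂ → ℂ} (hf : ContDiff ℝ ∞ f) : ContDiff ℝ ∞ (db f) := by
  have h : ContDiff ℝ ∞ (fderiv ℝ f) := hf.fderiv_right (by simp)
  unfold db
  have h1 : ContDiff ℝ ∞ fun z => fderiv ℝ f z 1 := h.clm_apply contDiff_const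
  have h2 : ContDiff ℝ ∞ fun z => fderiv ℝ f z I := h.clm_apply contDiff_const
  exact contDiff_const.mul (h1.add (contDiff_const.mul h2))

lemma cq_nonneg (q : ℝ) : 0 ≤ cq q := by
  unfold cq
  apply mul_nonneg (by positivity)
  exact intervalIntegral.integral_nonneg (by positivity) fun θ _ => by positivity

theorem RAW (h1 : S_GRAD) (h2 : S_ROT) (h3 : S_AVG) (h4 : S_APP) (h5 : S_MOLL) (h6 : S_CLOS) :
    S_RAW := by
  intro q hq1 hq2
  have hq0 : 0 < q := by linarith
  have hq' : 0 < q - 1 := by linarith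
  have hN : (2 * cq q ^ (1 / q) / (q - 1)) ^ q = 2 ^ q * cq q * (1 / (q - 1)) ^ q := by
    have hc := cq_nonneg q
    have hc' : 0 ≤ cq q ^ (1 / q) := Real.rpow_nonneg hc _
    rw [mul_div_assoc, Real.mul_rpow (by norm_num) (by positivity), div_eq_mul_one_div,
      Real.mul_rpow hc' (by positivity), ← Real.rpow_mul hc, one_div_mul_cancel hq0.ne',
      Real.rpow_one]
    ring
  have hK : (0 : ℝ) ≤ 2 ^ q * cq q * (1 / (q - 1)) ^ q := by
    have hc := cq_nonneg q
    positivity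
  -- potentials
  have hV : ∀ V : ℂ → ℂ, ContDiff ℝ ∞ V → HasCompactSupport V →
      ContDiff ℝ ∞ (fun x => 2 * db V x) ∧ HasCompactSupport (fun x => 2 * db V x) ∧
      ∫ z, ‖db (fun x => 2 * db V x) z‖ ^ q ≤ 2 ^ q * cq q * (1 / (q - 1)) ^ q *
        ∫ z, ‖dz (fun x => 2 * db V x) z‖ ^ q := by
    intro V hV hVc
    have hs : ContDiff ℝ ∞ (fun x => 2 * db V x) := contDiff_const.mul (db_smooth hV)
    have hc : HasCompactSupport (fun x => 2 * db V x) := (db_supp hVc).mul_left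
    refine ⟨hs, hc, ?_⟩
    have hs1 : ContDiff ℝ 1 (fun x => 2 * db V x) := contDiff_infty.1 hs 1
    obtain ⟨Y, hYc, hYs, hY⟩ := h2 V (contDiff_infty.1 hV 3) hVc
    refine h3 q hq1 ((1 / (q - 1)) ^ q) (by positivity) (dz (fun x => 2 * db V x))
      (db (fun x => 2 * db V x)) Y (dz_cont hs1) (db_cont hs1) hYc (dz_supp hc) (db_supp hc) hYs ?_
    intro θ
    have hu : ContDiff ℝ 2 (fun x => (exp (-(θ * I)) * V x).re) :=
      Complex.reCLM.contDiff.comp (contDiff_const.mul (contDiff_infty.1 hV 2))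
    have hus : HasCompactSupport (fun x => (exp (-(θ * I)) * V x).re) := by
      refine hVc.mono ?_
      intro z hz hz'
      apply hz
      have : V z = 0 := hz'
      simp [this]
    have h7 := (h1 _ hu hus).1 q hq1 hq2
    have e1 : ∀ z, ‖db (grd fun x => (exp (-(θ * I)) * V x).re) z‖ ^ q =
        ‖(exp (-(θ * I)) * db (fun x => 2 * db V x) z + exp (θ * I) * Y z) / 2‖ ^ q := by
      intro z
      rw [(hY θ z).2]
    have e2 : ∀ z, ‖dz (grd fun x => (exp (-(θ * I)) * V x).re) z‖ ^ q =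
        |(exp (-(θ * I)) * dz (fun x => 2 * db V x) z).re| ^ q := by
      intro z
      rw [(hY θ z).1, Complex.norm_real, Real.norm_eq_abs]
    simp only [e1, e2] at h7
    exact h7
  -- smooth functions
  have hS : ∀ h : ℂ → ℂ, ContDiff ℝ ∞ h → HasCompactSupport h →
      ∫ z, ‖db h z‖ ^ q ≤ 2 ^ q * cq q * (1 / (q - 1)) ^ q * ∫ z, ‖dz h z‖ ^ q := by
    intro h hh hc
    have hh1 : ContDiff ℝ 1 h := contDiff_infty.1 hh 1
    refine h6 q _ hq1 hK (db h) (dz h) (db_cont hh1) (dz_cont hh1) (db_supp hc) (dz_supp hc) ?_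
    intro ε hε
    obtain ⟨V, hVs, hVc, ha, hb⟩ := h4 h hh hc q ε hq1 hε
    obtain ⟨hs, hsc, hin⟩ := hV V hVs hVc
    have hs1 := contDiff_infty.1 hs 1
    exact ⟨db (fun x => 2 * db V x), dz (fun x => 2 * db V x), db_cont hs1, dz_cont hs1,
      db_supp hsc, dz_supp hsc, hb, ha, hin⟩
  intro f hf hfc
  rw [hN]
  refine h6 q _ hq1 hK (db f) (dz f) (db_cont hf) (dz_cont hf) (db_supp hfc) (dz_supp hfc) ?_
  intro ε hε
  obtain ⟨h, hh, hhc, ha, hb⟩ := h5 f hf hfc q ε hq1 hε
  have hs1 := contDiff_infty.1 hh 1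
  exact ⟨db h, dz h, db_cont hs1, dz_cont hs1, db_supp hhc, dz_supp hhc, hb, ha, hS h hh hhc⟩

end Pool.Agent.Helper11.BA
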